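import Mathlib

set_option autoImplicit false

/-!
# Orlicz's problem: an everywhere divergent trigonometric series with coefficients in every `ℓ^p`, `p > 2`

The integers in `[6 * 2 ^ k, 12 * 2 ^ k)` are cut into six intervals `[d * 2 ^ k, (d + 1) * 2 ^ k)`,
`d = 6, ..., 11`, of length `2 ^ k`.  The coefficients in the first three are those of the
Rudin-Shapiro polynomial `P_k`, times `(k + 1) / √2 ^ k`, at cosines, cosines and sines respectively;
those in the last three come from the companion polynomial `Q_k` in the same way.  If `w` is a complex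
number and `u` has modulus one then `|w| ^ 2 ≤ 3 (Re w ^ 2 + Re (u w) ^ 2 + Im (u ^ 2 w) ^ 2)`, and on
the unit circle `|P_k| ^ 2 + |Q_k| ^ 2 = 2 ^ (k + 1)`.  So at every point `x` and for every `k` the sum
of the squares of the six sums of the series over these intervals is at least `2 (k + 1) ^ 2 / 3`, and
the partial sums are unbounded at `x`.  The coefficients are `O (n ^ (-1 / 2) log n)`.
-/

namespace Pool.Agent.Results.MP_85199e_an.EverywhereDivergent

open Finset Filter Topology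

/-- The coefficients of the Rudin-Shapiro polynomials `P_k` and `Q_k`. -/
noncomputable def pq : ℕ → (ℕ → ℝ) × (ℕ → ℝ)
  | 0 => (fun _ => 1, fun _ => 1)
  | k + 1 => (fun m => if m < 2 ^ k then (pq k).1 m else (pq k).2 (m - 2 ^ k),
      fun m => if m < 2 ^ k then (pq k).1 m else -(pq k).2 (m - 2 ^ k))

lemma abs_pq (k : ℕ) : ∀ m, |(pq k).1 m| = 1 ∧ |(pq k).2 m| = 1 := by
  induction k with
  | zero => intro m; simp [pq]
  | succ k ih =>
    intro m
    simp only [pq]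
    split_ifs with h
    · exact ⟨(ih m).1, (ih m).1⟩
    · rw [abs_neg]
      exact ⟨(ih _).2, (ih _).2⟩

/-- The polynomial `P_k`. -/
noncomputable def P (k : ℕ) (z : ℂ) : ℂ := ∑ m ∈ range (2 ^ k), ((pq k).1 m : ℂ) * z ^ m

/-- The polynomial `Q_k`. -/
noncomputable def Q (k : ℕ) (z : ℂ) : ℂ := ∑ m ∈ range (2 ^ k), ((pq k).2 m : ℂ) * z ^ m

lemma P_succ (k : ℕ) (z : ℂ) : P (k + 1) z = P k z + z ^ 2 ^ k * Q k z := by
  unfold P Q
  rw [pow_succ, mul_two, sum_range_add, mul_sum]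
  congr 1
  · refine sum_congr rfl fun m hm => ?_
    rw [mem_range] at hm
    simp only [pq, if_pos hm]
  · refine sum_congr rfl fun m _ => ?_
    simp only [pq]
    rw [if_neg (by omega), Nat.add_sub_cancel_left, pow_add]
    ring

lemma Q_succ (k : ℕ) (z : ℂ) : Q (k + 1) z = P k z - z ^ 2 ^ k * Q k z := by
  unfold P Q
  rw [pow_succ, mul_two, sum_range_add, mul_sum, sub_eq_add_neg, ← sum_neg_distrib]
  congr 1
  · refine sum_congr rfl fun m hm => ?_
    rw [mem_range] at hm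
    simp only [pq, if_pos hm]
  · refine sum_congr rfl fun m _ => ?_
    simp only [pq]
    rw [if_neg (by omega), Nat.add_sub_cancel_left, pow_add]
    push_cast
    ring

lemma parallelogram (k : ℕ) {z : ℂ} (hz : Complex.normSq z = 1) :
    Complex.normSq (P k z) + Complex.normSq (Q k z) = 2 ^ (k + 1) := by
  induction k with
  | zero => simp [P, Q, pq]; norm_num
  | succ k ih =>
    rw [P_succ, Q_succ]
    have h1 : Complex.normSq (z ^ 2 ^ k * Q k z) = Complex.normSq (Q k z) := by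
      rw [Complex.normSq_mul, map_pow, hz, one_pow, one_mul]
    have h2 : Complex.normSq (P k z + z ^ 2 ^ k * Q k z) + Complex.normSq (P k z - z ^ 2 ^ k * Q k z)
        = 2 * (Complex.normSq (P k z) + Complex.normSq (z ^ 2 ^ k * Q k z)) := by
      simp only [Complex.normSq_apply, Complex.add_re, Complex.add_im, Complex.sub_re, Complex.sub_im]
      ring
    rw [h2, h1, ih, pow_succ (2 : ℝ) (k + 1)]
    ring

/-- Three phases suffice. -/
lemma phases (u w : ℂ) (hu : Complex.normSq u = 1) :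
    Complex.normSq w ≤ 3 * (w.re ^ 2 + (u * w).re ^ 2 + (u ^ 2 * w).im ^ 2) := by
  obtain ⟨c, d⟩ := u
  obtain ⟨a, b⟩ := w
  have hcd : c * c + d * d = 1 := by simpa [Complex.normSq_apply] using hu
  simp only [Complex.normSq_apply, Complex.mul_re, Complex.mul_im, pow_two]
  set e := c * a - d * b with he
  set f := c * b + d * a with hf
  have ha : a = c * e + d * f := by
    rw [he, hf]
    linear_combination -a * hcd
  have h2 : (c * c - d * d) * b + (c * d + d * c) * a = c * f + d * e := by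
    rw [he, hf]; ring
  rw [h2]
  have h3 : a * a + b * b = e * e + f * f := by
    rw [he, hf]
    linear_combination -(a * a + b * b) * hcd
  rw [h3, ha]
  have h4 : e * e + f * f = e * e + ((c * e + d * f - c * e) ^ 2 + (c * f + d * e - d * e) ^ 2) := by
    linear_combination -(f * f) * hcd
  nlinarith [sq_nonneg (c * e + d * f + c * e), sq_nonneg (c * f + d * e + d * e),
    sq_nonneg (c * e + d * f), sq_nonneg (c * f + d * e), sq_nonneg (c * e), sq_nonneg (d * e),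
    mul_nonneg (sq_nonneg e) (sq_nonneg c), hcd]

/-- The number of the block of `n`. -/
def blk (n : ℕ) : ℕ := Nat.log 2 (n / 6)

/-- The size of the coefficients in the block `k`. -/
noncomputable def ρ (k : ℕ) : ℝ := (k + 1) * (√2)⁻¹ ^ k

/-- The cosine coefficients. -/
noncomputable def a (n : ℕ) : ℝ :=
  if n / 2 ^ blk n = 6 ∨ n / 2 ^ blk n = 7 then ρ (blk n) * (pq (blk n)).1 (n % 2 ^ blk n)
  else if n / 2 ^ blk n = 9 ∨ n / 2 ^ blk n = 10 then
    ρ (blk n) * (pq (blk n)).2 (n % 2 ^ blk n)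
  else 0

/-- The sine coefficients. -/
noncomputable def b (n : ℕ) : ℝ :=
  if n / 2 ^ blk n = 8 then ρ (blk n) * (pq (blk n)).1 (n % 2 ^ blk n)
  else if n / 2 ^ blk n = 11 then ρ (blk n) * (pq (blk n)).2 (n % 2 ^ blk n)
  else 0

/-- The `n`-th term of the series. -/
noncomputable def t (x : ℝ) (n : ℕ) : ℝ := a n * Real.cos (n * x) + b n * Real.sin (n * x)

lemma blk_eq {k d m : ℕ} (hd : 6 ≤ d) (hd' : d < 12) (hm : m < 2 ^ k) :
    blk (d * 2 ^ k + m) = k ∧ (d * 2 ^ k + m) / 2 ^ k = d ∧ (d * 2 ^ k + m) % 2 ^ k = m := by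
  have hp : 0 < 2 ^ k := Nat.two_pow_pos k
  refine ⟨?_, ?_, ?_⟩
  · unfold blk
    rw [Nat.log_eq_iff (Or.inr ⟨by norm_num, ?_⟩)]
    · constructor
      · rw [Nat.le_div_iff_mul_le (by norm_num)]
        nlinarith
      · rw [Nat.div_lt_iff_lt_mul (by norm_num), pow_succ]
        nlinarith
    · have : 6 ≤ d * 2 ^ k + m := by nlinarith
      omega
  · rw [add_comm, Nat.add_mul_div_right _ _ hp, Nat.div_eq_of_lt hm, zero_add]
  · rw [add_comm, Nat.add_mul_mod_self_right, Nat.mod_eq_of_lt hm]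

lemma exp_re (x : ℝ) (n : ℕ) : ((Complex.exp (x * Complex.I)) ^ n).re = Real.cos (n * x) := by
  rw [← Complex.exp_nat_mul]
  have : (n : ℂ) * (x * Complex.I) = ((n * x : ℝ) : ℂ) * Complex.I := by push_cast; ring
  rw [this, Complex.exp_ofReal_mul_I_re]

lemma exp_im (x : ℝ) (n : ℕ) : ((Complex.exp (x * Complex.I)) ^ n).im = Real.sin (n * x) := by
  rw [← Complex.exp_nat_mul]
  have : (n : ℂ) * (x * Complex.I) = ((n * x : ℝ) : ℂ) * Complex.I := by push_cast; ring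
  rw [this, Complex.exp_ofReal_mul_I_im]

/-- Multiplication of a polynomial by a power. -/
lemma shift_re (c : ℕ → ℝ) (L N : ℕ) (x : ℝ) :
    ((Complex.exp (x * Complex.I)) ^ N *
      ∑ m ∈ range L, (c m : ℂ) * (Complex.exp (x * Complex.I)) ^ m).re
      = ∑ m ∈ range L, c m * Real.cos ((N + m : ℕ) * x) := by
  rw [mul_sum, Complex.re_sum]
  refine sum_congr rfl fun m _ => ?_
  rw [← exp_re, pow_add]
  rw [show (Complex.exp (x * Complex.I)) ^ N * ((c m : ℂ) * (Complex.exp (x * Complex.I)) ^ m)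
    = (c m : ℂ) * ((Complex.exp (x * Complex.I)) ^ N * (Complex.exp (x * Complex.I)) ^ m) by ring,
    Complex.re_ofReal_mul]

lemma shift_im (c : ℕ → ℝ) (L N : ℕ) (x : ℝ) :
    ((Complex.exp (x * Complex.I)) ^ N *
      ∑ m ∈ range L, (c m : ℂ) * (Complex.exp (x * Complex.I)) ^ m).im
      = ∑ m ∈ range L, c m * Real.sin ((N + m : ℕ) * x) := by
  rw [mul_sum, Complex.im_sum]
  refine sum_congr rfl fun m _ => ?_
  rw [← exp_im, pow_add]
  rw [show (Complex.exp (x * Complex.I)) ^ N * ((c m : ℂ) * (Complex.exp (x * Complex.I)) ^ m)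
    = (c m : ℂ) * ((Complex.exp (x * Complex.I)) ^ N * (Complex.exp (x * Complex.I)) ^ m) by ring,
    Complex.im_ofReal_mul]

/-- The sum of the series over the interval `[d * 2 ^ k, (d + 1) * 2 ^ k)`. -/
noncomputable def piece (x : ℝ) (k d : ℕ) : ℝ := ∑ m ∈ range (2 ^ k), t x (d * 2 ^ k + m)

lemma piece_cos_P (x : ℝ) (k d : ℕ) (hd : d = 6 ∨ d = 7) :
    piece x k d = ρ k *
      ((Complex.exp (x * Complex.I)) ^ (d * 2 ^ k) * P k (Complex.exp (x * Complex.I))).re := by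
  unfold P piece
  rw [shift_re, mul_sum]
  refine sum_congr rfl fun m hm => ?_
  rw [mem_range] at hm
  obtain ⟨h1, h2, h3⟩ := blk_eq (k := k) (d := d) (m := m) (by omega) (by omega) hm
  unfold t a b
  rw [h1, h2, h3]
  rcases hd with rfl | rfl <;> norm_num <;> ring

lemma piece_sin_P (x : ℝ) (k : ℕ) :
    piece x k 8 = ρ k *
      ((Complex.exp (x * Complex.I)) ^ (8 * 2 ^ k) * P k (Complex.exp (x * Complex.I))).im := by
  unfold P piece
  rw [shift_im, mul_sum]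
  refine sum_congr rfl fun m hm => ?_
  rw [mem_range] at hm
  obtain ⟨h1, h2, h3⟩ := blk_eq (k := k) (d := 8) (m := m) (by omega) (by omega) hm
  unfold t a b
  rw [h1, h2, h3]
  norm_num
  ring

lemma piece_cos_Q (x : ℝ) (k d : ℕ) (hd : d = 9 ∨ d = 10) :
    piece x k d = ρ k *
      ((Complex.exp (x * Complex.I)) ^ (d * 2 ^ k) * Q k (Complex.exp (x * Complex.I))).re := by
  unfold Q piece
  rw [shift_re, mul_sum]
  refine sum_congr rfl fun m hm => ?_
  rw [mem_range] at hm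
  obtain ⟨h1, h2, h3⟩ := blk_eq (k := k) (d := d) (m := m) (by omega) (by omega) hm
  unfold t a b
  rw [h1, h2, h3]
  rcases hd with rfl | rfl <;> norm_num <;> ring

lemma piece_sin_Q (x : ℝ) (k : ℕ) :
    piece x k 11 = ρ k *
      ((Complex.exp (x * Complex.I)) ^ (11 * 2 ^ k) * Q k (Complex.exp (x * Complex.I))).im := by
  unfold Q piece
  rw [shift_im, mul_sum]
  refine sum_congr rfl fun m hm => ?_
  rw [mem_range] at hm
  obtain ⟨h1, h2, h3⟩ := blk_eq (k := k) (d := 11) (m := m) (by omega) (by omega) hm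
  unfold t a b
  rw [h1, h2, h3]
  norm_num
  ring

/-- The sum of the squares of the six pieces. -/
lemma pieces (x : ℝ) (k : ℕ) :
    2 / 3 * ((k : ℝ) + 1) ^ 2 ≤ piece x k 6 ^ 2 + piece x k 7 ^ 2 + piece x k 8 ^ 2 + piece x k 9 ^ 2
      + piece x k 10 ^ 2 + piece x k 11 ^ 2 := by
  rw [piece_cos_P x k 6 (Or.inl rfl), piece_cos_P x k 7 (Or.inr rfl), piece_sin_P,
    piece_cos_Q x k 9 (Or.inl rfl), piece_cos_Q x k 10 (Or.inr rfl), piece_sin_Q]
  set z := Complex.exp (x * Complex.I) with hz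
  have hz1 : Complex.normSq z = 1 := by
    rw [Complex.normSq_eq_norm_sq, hz, Complex.norm_exp_ofReal_mul_I, one_pow]
  have hu : Complex.normSq (z ^ 2 ^ k) = 1 := by rw [map_pow, hz1, one_pow]
  have h1 := phases (z ^ 2 ^ k) (z ^ (6 * 2 ^ k) * P k z) hu
  have h2 := phases (z ^ 2 ^ k) (z ^ (9 * 2 ^ k) * Q k z) hu
  have e1 : z ^ 2 ^ k * (z ^ (6 * 2 ^ k) * P k z) = z ^ (7 * 2 ^ k) * P k z := by
    rw [← mul_assoc, ← pow_add]; congr 2; ring
  have e2 : (z ^ 2 ^ k) ^ 2 * (z ^ (6 * 2 ^ k) * P k z) = z ^ (8 * 2 ^ k) * P k z := by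
    rw [← mul_assoc, ← pow_mul, ← pow_add]; congr 2; ring
  have e3 : z ^ 2 ^ k * (z ^ (9 * 2 ^ k) * Q k z) = z ^ (10 * 2 ^ k) * Q k z := by
    rw [← mul_assoc, ← pow_add]; congr 2; ring
  have e4 : (z ^ 2 ^ k) ^ 2 * (z ^ (9 * 2 ^ k) * Q k z) = z ^ (11 * 2 ^ k) * Q k z := by
    rw [← mul_assoc, ← pow_mul, ← pow_add]; congr 2; ring
  rw [e1, e2, Complex.normSq_mul, map_pow, hz1, one_pow, one_mul] at h1
  rw [e3, e4, Complex.normSq_mul, map_pow, hz1, one_pow, one_mul] at h2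
  have h3 := parallelogram k hz1
  have h4 : ρ k ^ 2 = ((k : ℝ) + 1) ^ 2 * (2 ^ k : ℝ)⁻¹ := by
    rw [ρ, mul_pow, ← pow_mul, mul_comm k 2, pow_mul, inv_pow, Real.sq_sqrt (by norm_num), inv_pow]
  have h5 : (2 ^ k : ℝ)⁻¹ * 2 ^ (k + 1) = 2 := by
    rw [pow_succ]
    field_simp
  simp only [mul_pow, h4]
  have h6 : 0 < ((k : ℝ) + 1) ^ 2 * (2 ^ k : ℝ)⁻¹ := by positivity
  have h7 : 2 ^ (k + 1) ≤ 3 * ((z ^ (6 * 2 ^ k) * P k z).re ^ 2 + (z ^ (7 * 2 ^ k) * P k z).re ^ 2 +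
      (z ^ (8 * 2 ^ k) * P k z).im ^ 2) + 3 * ((z ^ (9 * 2 ^ k) * Q k z).re ^ 2 +
      (z ^ (10 * 2 ^ k) * Q k z).re ^ 2 + (z ^ (11 * 2 ^ k) * Q k z).im ^ 2) := by
    rw [← h3]; exact add_le_add h1 h2
  have h8 := mul_le_mul_of_nonneg_left h7 h6.le
  rw [mul_assoc, h5] at h8
  linarith

lemma t_zero (x : ℝ) : t x 0 = 0 := by
  unfold t a b blk
  norm_num

lemma sum_Icc (x : ℝ) (N : ℕ) : ∑ n ∈ Icc 1 N, t x n = ∑ n ∈ range (N + 1), t x n := by
  rw [sum_range_succ', t_zero, add_zero, range_eq_Ico, sum_Ico_add' (fun n => t x n) 0 N 1, zero_add]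
  rfl

/-- The partial sums are unbounded at every point. -/
lemma unbounded (x M : ℝ) : ∃ N : ℕ, M < |∑ n ∈ Icc 1 N, t x n| := by
  by_contra hcon
  push Not at hcon
  have hM : 0 ≤ M := (abs_nonneg _).trans (hcon 0)
  have hr : ∀ N : ℕ, |∑ n ∈ range N, t x n| ≤ M := by
    intro N
    rcases N with _ | N
    · simpa using hM
    · rw [← sum_Icc]
      exact hcon N
  have hp : ∀ k d : ℕ, piece x k d ^ 2 ≤ (2 * M) ^ 2 := by
    intro k d
    rw [← sq_abs]
    refine pow_le_pow_left₀ (abs_nonneg _) ?_ 2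
    have h1 : piece x k d = ∑ n ∈ range (d * 2 ^ k + 2 ^ k), t x n - ∑ n ∈ range (d * 2 ^ k), t x n := by
      rw [sum_range_add, add_sub_cancel_left]
      rfl
    rw [h1]
    refine (abs_sub _ _).trans ?_
    linarith [hr (d * 2 ^ k + 2 ^ k), hr (d * 2 ^ k)]
  obtain ⟨k, hk⟩ := exists_nat_gt (6 * M)
  have h1 := pieces x k
  have h2 : (6 * M) ^ 2 < ((k : ℝ) + 1) ^ 2 :=
    pow_lt_pow_left₀ (by linarith) (by linarith) (by norm_num)
  have h3 := hp k 6
  have h4 := hp k 7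
  have h5 := hp k 8
  have h6 := hp k 9
  have h7 := hp k 10
  have h8 := hp k 11
  nlinarith

lemma diverges (x : ℝ) : ¬ ∃ L : ℝ, Tendsto (fun N => ∑ n ∈ Icc 1 N, t x n) atTop (𝓝 L) := by
  rintro ⟨L, hL⟩
  obtain ⟨M, hM⟩ := hL.abs.bddAbove_range
  obtain ⟨N, hN⟩ := unbounded x M
  have h1 : |∑ n ∈ Icc 1 N, t x n| ≤ M := hM (Set.mem_range_self N)
  linarith

lemma abs_le_rho (n : ℕ) : |a n| ≤ ρ (blk n) ∧ |b n| ≤ ρ (blk n) := by
  have h0 : 0 ≤ ρ (blk n) := by unfold ρ; positivity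
  have h1 := abs_pq (blk n) (n % 2 ^ blk n)
  unfold a b
  constructor
  · split_ifs
    · rw [abs_mul, h1.1, mul_one, abs_of_nonneg h0]
    · rw [abs_mul, h1.2, mul_one, abs_of_nonneg h0]
    · rw [abs_zero]; exact h0
  · split_ifs
    · rw [abs_mul, h1.1, mul_one, abs_of_nonneg h0]
    · rw [abs_mul, h1.2, mul_one, abs_of_nonneg h0]
    · rw [abs_zero]; exact h0

lemma blk_lower (n : ℕ) : (n : ℝ) / 12 ≤ 2 ^ blk n := by
  have h1 : n / 6 < 2 ^ (blk n + 1) := Nat.lt_pow_succ_log_self (by norm_num) _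
  have h2 : n < 12 * 2 ^ blk n := by
    rw [Nat.div_lt_iff_lt_mul (by norm_num), pow_succ] at h1
    omega
  have h3 : (n : ℝ) < 12 * 2 ^ blk n := by exact_mod_cast h2
  linarith

lemma rho_bound {δ : ℝ} (h0 : 0 < δ) (h1 : δ < 1 / 2) : ∃ C : ℝ, 0 < C ∧ ∀ n : ℕ, 1 ≤ n →
    ρ (blk n) ≤ C * (n : ℝ) ^ (-(1 / 2 - δ)) := by
  have hr : (1 : ℝ) < 2 ^ δ := Real.one_lt_rpow (by norm_num) h0
  obtain ⟨B, hB⟩ := (tendsto_pow_const_div_const_pow_of_one_lt 1 hr).bddAbove_range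
  have hB' : ∀ k : ℕ, (k : ℝ) ≤ B * (2 ^ δ) ^ k := by
    intro k
    have := hB (Set.mem_range_self k)
    simp only [pow_one] at this
    rwa [div_le_iff₀ (by positivity)] at this
  have hB0 : 0 ≤ B := by
    have := hB (Set.mem_range_self 0)
    simpa using this
  have hk : ∀ k : ℕ, ρ k ≤ (B + 1) * ((2 : ℝ) ^ k) ^ (-(1 / 2 - δ)) := by
    intro k
    have e1 : (2 : ℝ) ^ δ = (2 : ℝ) ^ δ := rfl
    have e2 : ((2 : ℝ) ^ δ) ^ k = ((2 : ℝ) ^ k) ^ δ := by
      rw [← Real.rpow_natCast, ← Real.rpow_mul (by norm_num), mul_comm, Real.rpow_mul (by norm_num),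
        Real.rpow_natCast]
    have e3 : (√2)⁻¹ ^ k = ((2 : ℝ) ^ k) ^ (-(1 / 2) : ℝ) := by
      rw [Real.rpow_neg (by positivity), ← Real.sqrt_eq_rpow, inv_pow]
      congr 1
      rw [eq_comm, Real.sqrt_eq_iff_mul_self_eq (by positivity) (by positivity), ← mul_pow,
        Real.mul_self_sqrt (by norm_num)]
    have e4 : ((2 : ℝ) ^ k) ^ (-(1 / 2 - δ)) = ((2 : ℝ) ^ k) ^ δ * ((2 : ℝ) ^ k) ^ (-(1 / 2) : ℝ) := by
      rw [← Real.rpow_add (by positivity)]
      congr 1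
      ring
    rw [ρ, e3, e4, ← mul_assoc]
    refine mul_le_mul_of_nonneg_right ?_ (by positivity)
    have h3 := hB' k
    rw [e2] at h3
    have h4 : (1 : ℝ) ≤ ((2 : ℝ) ^ k) ^ δ :=
      Real.one_le_rpow (one_le_pow₀ (by norm_num)) h0.le
    linarith
  refine ⟨(B + 1) * (12 : ℝ) ^ (1 / 2 - δ), by positivity, fun n hn => ?_⟩
  have hn' : (0 : ℝ) < n := by exact_mod_cast hn
  refine (hk _).trans ?_
  rw [mul_assoc]
  refine mul_le_mul_of_nonneg_left ?_ (by linarith)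
  have h2 : ((2 : ℝ) ^ blk n) ^ (-(1 / 2 - δ)) ≤ ((n : ℝ) / 12) ^ (-(1 / 2 - δ)) :=
    Real.rpow_le_rpow_of_nonpos (by positivity) (blk_lower n) (by linarith)
  refine h2.trans (le_of_eq ?_)
  rw [Real.div_rpow hn'.le (by norm_num), Real.rpow_neg (by norm_num : (0 : ℝ) ≤ 12), div_inv_eq_mul,
    mul_comm]

lemma summable_coeff {ε : ℝ} (hε : 0 < ε) :
    Summable fun n : ℕ => |a n| ^ (2 + ε) + |b n| ^ (2 + ε) := by
  set δ : ℝ := ε / (4 * (2 + ε)) with hδ
  have h0 : 0 < δ := by positivity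
  have h1 : δ < 1 / 2 := by
    rw [hδ, div_lt_iff₀ (by positivity)]
    linarith
  have he : (-(1 / 2 - δ)) * (2 + ε) = -(1 + ε / 4) := by
    rw [hδ]
    field_simp
    ring
  obtain ⟨C, hC, h⟩ := rho_bound h0 h1
  rw [← summable_nat_add_iff 1]
  have hs : Summable fun n : ℕ => 2 * C ^ (2 + ε) * ((n + 1 : ℕ) : ℝ) ^ (-(1 + ε / 4)) := by
    refine Summable.mul_left _ ?_
    rw [summable_nat_add_iff 1 (f := fun n : ℕ => (n : ℝ) ^ (-(1 + ε / 4)))]
    exact Real.summable_nat_rpow.2 (by linarith)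
  refine Summable.of_nonneg_of_le (fun n => by positivity) (fun n => ?_) hs
  have hn := h (n + 1) (by omega)
  have hab := abs_le_rho (n + 1)
  have key : ∀ c : ℝ, |c| ≤ ρ (blk (n + 1)) →
      |c| ^ (2 + ε) ≤ C ^ (2 + ε) * ((n + 1 : ℕ) : ℝ) ^ (-(1 + ε / 4)) := by
    intro c hc
    refine (Real.rpow_le_rpow (abs_nonneg _) (hc.trans hn) (by linarith)).trans (le_of_eq ?_)
    rw [Real.mul_rpow hC.le (by positivity), ← Real.rpow_mul (by positivity), he]
  have := key _ hab.1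
  have := key _ hab.2
  linarith

/-- **Orlicz's problem: yes.** There is a real trigonometric series
`∑_{n ≥ 1} (a_n cos (n x) + b_n sin (n x))` with `∑ (|a_n| ^ (2 + ε) + |b_n| ^ (2 + ε)) < ∞` for every
`ε > 0` which diverges at every real `x`. Its partial sums are even unbounded at every `x`. -/
theorem result : ∃ a b : ℕ → ℝ,
    (∀ ε : ℝ, 0 < ε → Summable fun n : ℕ => |a n| ^ (2 + ε) + |b n| ^ (2 + ε)) ∧
    (∀ x : ℝ, ¬ ∃ L : ℝ,
      Tendsto (fun N : ℕ => ∑ n ∈ Icc 1 N, (a n * Real.cos (n * x) + b n * Real.sin (n * x)))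
        atTop (𝓝 L)) ∧
    ∀ x M : ℝ, ∃ N : ℕ, M < |∑ n ∈ Icc 1 N, (a n * Real.cos (n * x) + b n * Real.sin (n * x))| :=
  ⟨a, b, fun _ hε => summable_coeff hε, diverges, unbounded⟩

end Pool.Agent.Results.MP_85199e_an.EverywhereDivergent
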